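import Mathlib
import Pool.Agent.TH860.LQ.RelFin

/-!
# Rémond's inequality and local factors of the minimal polynomial modulo `q`

Let `F` be any field of complex numbers, for instance `F = ℚ(Γ_div)` for a subgroup `Γ` of `ℂ*`. Let
`α` be an algebraic integer, `f` its minimal polynomial over `F`, `d` the degree of `f` (that is
`d = D_Γ(α)` for `F = ℚ(Γ_div)`), and `N = N(m)` the number of distinct `m`-th powers of the zeros of
`f` (so `N = d` if no quotient of two distinct zeros is an `m`-th root of unity). Integral means: with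
coefficients that are algebraic integers.

Let `q ≥ 2` be an integer and let `A` be a local factor of `f` modulo `q`, of degree `a`: an integral
monic polynomial over `F` such that `f = A B + q R` and `U A + W B = 1 + q E` with integral `B`, `R`,
`U`, `W`, `E`. Nothing else is assumed on the cofactor `B`.

(1) Let `m ≥ 1` and let `G` be a monic polynomial over `F` of degree `D ≥ 1` such that `A` divides
`G (X ^ m)` modulo `q`. Then `a (a N - 2 D d) log q ≤ D d ^ 2 (log N + 2 m N h(α))`. If `a ≥ 1`,
`4 D d ≤ a N` and `4 D d ^ 2 log N ≤ a ^ 2 N log q`, then `h(α) ≥ (a / d) ^ 2 log q / (8 m D)`.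

(2) Let `q = p` be a prime number, `m = p ^ t`, and let `H` be an integral monic polynomial over `F`
of degree `D ≥ 1` such that `A` divides `H ^ m` modulo `p`. Then the same conclusions hold.

(3) Suppose moreover in (2) that `F = ℚ(Γ_div)`, that `a ≥ 1`, `4 D d ≤ a N`,
`4 D d ^ 2 log N ≤ a ^ 2 N log p` and that `m D ≤ c a` for a real number `c > 0`. Then
`h(α) ≥ (((a / d) log p) / (8 c)) / d`.

So Rémond's inequality `h(α) ≥ c / D_Γ(α)` holds, with a constant `c` which depends only on a lower
bound for the proportion `a / d` and on `m D / a`, for all these `α` and all subgroups `Γ`.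

Method: for every valuation ring above `q`, at least `a` of the conjugates `z` of `α` over `F` are
such that `G (z ^ m)` is divisible by `q`; which ones depends on the valuation ring. So the
Vandermonde determinant of the distinct `m`-th powers of the conjugates of `α` over `F` is divisible
by a power of `q` whose exponent is quadratic in `a`; its norm from the Galois closure of `ℚ(α)` to
`ℚ` is bounded from above by Hadamard's inequality at every embedding.
-/

set_option autoImplicit false

open Polynomial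

namespace Pool.Agent.Results.MP_f61260_nt.RelativeLocalFactors

/-- The absolute logarithmic Weil height of an algebraic integer. -/
noncomputable def height (α : ℂ) : ℝ :=
  Real.log ((minpoly ℤ α).map (Int.castRingHom ℂ)).mahlerMeasure / (minpoly ℤ α).natDegree

/-- The number of distinct values of `z ^ m` for the conjugates `z` of `α` over `F`. -/
noncomputable def powConj (F : IntermediateField ℚ ℂ) (α : ℂ) (m : ℕ) : ℕ :=
  ((fun z : ℂ => z ^ m) '' ((minpoly F α).rootSet ℂ)).ncard

/-- The coefficients of `P` are algebraic integers. -/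
def IntCoeff {F : IntermediateField ℚ ℂ} (P : F[X]) : Prop :=
  ∀ i, IsIntegral ℤ ((P.coeff i : F) : ℂ)

/-- `A` is a local factor modulo `q` of the minimal polynomial of `α` over `F`: it is monic and
integral, and modulo `q` the minimal polynomial is the product of `A` and of a polynomial `B` with
`(A, B) = 1` modulo `q`. -/
def IsLocalFactor (F : IntermediateField ℚ ℂ) (α : ℂ) (q : ℕ) (A : F[X]) : Prop :=
  A.Monic ∧ IntCoeff A ∧ ∃ B R U W E : F[X], IntCoeff B ∧ IntCoeff R ∧ IntCoeff U ∧ IntCoeff W ∧
    IntCoeff E ∧ minpoly F α = A * B + C (q : F) * R ∧ U * A + W * B = 1 + C (q : F) * E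

/-- `A` divides `P` modulo `q`, with integral quotients. -/
def DvdMod {F : IntermediateField ℚ ℂ} (q : ℕ) (A P : F[X]) : Prop :=
  ∃ A' B' : F[X], IntCoeff A' ∧ IntCoeff B' ∧ P = A * A' + C (q : F) * B'

/-- The conditions `4 D d ≤ a N` and `4 D d ^ 2 log N ≤ a ^ 2 N log q`. -/
def Large (F : IntermediateField ℚ ℂ) (α : ℂ) (q m a D : ℕ) : Prop :=
  4 * D * (minpoly F α).natDegree ≤ a * powConj F α m ∧
    4 * (D : ℝ) * (minpoly F α).natDegree ^ 2 * Real.log (powConj F α m) ≤
      (a : ℝ) ^ 2 * powConj F α m * Real.log q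

/-- The conclusions in (1) and (2). -/
def Bounds (F : IntermediateField ℚ ℂ) (α : ℂ) (q m a D : ℕ) : Prop :=
  (a : ℝ) * (a * powConj F α m - 2 * D * (minpoly F α).natDegree) * Real.log q ≤
      D * (minpoly F α).natDegree ^ 2 *
        (Real.log (powConj F α m) + 2 * m * powConj F α m * height α) ∧
    (1 ≤ a → Large F α q m a D →
      ((a : ℝ) / (minpoly F α).natDegree) ^ 2 * (Real.log q / (8 * m * D)) ≤ height α)

/-- The division group `Γ_div` of `Γ`. -/
def divGroup (Γ : Subgroup ℂˣ) : Set ℂ :=
  {z : ℂ | z ≠ 0 ∧ ∃ n : ℕ, 1 ≤ n ∧ ∃ g ∈ Γ, (g : ℂ) = z ^ n}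

/-- The field `ℚ(Γ_div)`. -/
noncomputable def divField (Γ : Subgroup ℂˣ) : IntermediateField ℚ ℂ :=
  IntermediateField.adjoin ℚ (divGroup Γ)

/-- **Height lower bounds from local factors, relative to an arbitrary field.** -/
theorem result :
    (∀ (F : IntermediateField ℚ ℂ) (α : ℂ), IsIntegral ℤ α → ∀ (q : ℕ), 2 ≤ q → ∀ A : F[X],
      IsLocalFactor F α q A →
      (∀ m : ℕ, 1 ≤ m → ∀ G : F[X], G.Monic → 1 ≤ G.natDegree → DvdMod q A (G.comp (X ^ m)) →
        Bounds F α q m A.natDegree G.natDegree) ∧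
      (q.Prime → ∀ t : ℕ, ∀ H : F[X], H.Monic → IntCoeff H → 1 ≤ H.natDegree →
        DvdMod q A (H ^ q ^ t) → Bounds F α q (q ^ t) A.natDegree H.natDegree)) ∧
    (∀ (Γ : Subgroup ℂˣ) (α : ℂ), IsIntegral ℤ α → ∀ p : ℕ, p.Prime → ∀ A : (divField Γ)[X],
      IsLocalFactor (divField Γ) α p A → 1 ≤ A.natDegree →
      ∀ t : ℕ, ∀ H : (divField Γ)[X], H.Monic → IntCoeff H → 1 ≤ H.natDegree →
        DvdMod p A (H ^ p ^ t) → Large (divField Γ) α p (p ^ t) A.natDegree H.natDegree →
        ∀ c : ℝ, 0 < c → (p : ℝ) ^ t * H.natDegree ≤ c * A.natDegree →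
        ∀ f : ℤ[X], Irreducible f → aeval α f = 0 →
          ((A.natDegree : ℝ) / (minpoly (divField Γ) α).natDegree * Real.log p / (8 * c)) /
              ((minpoly (divField Γ) α).natDegree : ℝ) ≤
            Real.log ((f.map (Int.castRingHom ℂ)).mahlerMeasure) / (f.natDegree : ℝ)) := by
  have bnd : ∀ (F : IntermediateField ℚ ℂ) (α : ℂ) (q m a D : ℕ), 2 ≤ q → 0 < m → 0 < D →
      Pool.Agent.TH860.LQ.Ineq F α q m a D → Bounds F α q m a D := by
    intro F α q m a D hq hm hD h
    refine ⟨?_, fun ha h2 => ?_⟩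
    · have e : 2 * (m : ℝ) * powConj F α m * height α =
        2 * (m * (powConj F α m * height α)) := by ring
      rw [e]
      exact h.2.2
    · have h4 := Pool.Agent.TH860.LQ.to_height_local (by omega) hD hm (by omega) h h2.1 h2.2
      rw [mul_assoc 8 (m : ℝ)]
      exact h4
  refine ⟨fun F α hα q hq A hA => ?_, fun Γ α hα p hp A hA hA0 t H hHm hH hH0 hdvd hl c hc hmD
    f hf h0 => ?_⟩
  · obtain ⟨hAm, iA, B, R, U, W, E, iB, iR, iU, iW, iE, hf, hco⟩ := hA
    refine ⟨fun m hm G hGm hG0 hdvd => ?_, fun hp t H hHm hH hH0 hdvd => ?_⟩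
    · obtain ⟨A', B', iA', iB', hG⟩ := hdvd
      exact bnd F α q m _ _ hq (by omega) (by omega)
        (Pool.Agent.TH860.LQ.local_comp hα q m (by omega) A B R U W E G A' B' hAm hGm (by omega)
          iA iB iR iU iW iE iA' iB' hf hco hG)
    · obtain ⟨A', B', iA', iB', hG⟩ := hdvd
      exact bnd F α q (q ^ t) _ _ hq (pow_pos hp.pos t) (by omega)
        (Pool.Agent.TH860.LQ.local_prime hα hp t A B R U W E H A' B' hAm hHm (by omega)
          iA iB iR iU iW iE hH iA' iB' hf hco hG)
  · obtain ⟨hAm, iA, B, R, U, W, E, iB, iR, iU, iW, iE, hf', hco⟩ := hA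
    obtain ⟨A', B', iA', iB', hG⟩ := hdvd
    have h := Pool.Agent.TH860.LQ.local_prime hα hp t A B R U W E H A' B' hAm hHm (by omega)
      iA iB iR iU iW iE hH iA' iB' hf' hco hG
    rw [Pool.Agent.TH860.LP.hgt_eq hα f hf h0]
    exact Pool.Agent.TH860.LQ.to_remond_local (by omega) (by omega) (pow_pos hp.pos t)
      hp.one_lt h hl.1 hl.2 c hc (by push_cast; exact hmD)

end Pool.Agent.Results.MP_f61260_nt.RelativeLocalFactors
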