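import Mathlib
import Pool.Agent.TH860.LP.Rel2

/-!
# Rémond's inequality for polynomials dividing a polynomial in `X ^ m` modulo `q`

Let `F` be any field of complex numbers, for instance `F = ℚ(Γ_div)` for a subgroup `Γ` of `ℂ*`. Let
`α` be an algebraic integer, `f` its minimal polynomial over `F`, `d` the degree of `f` (that is
`d = D_Γ(α)` for `F = ℚ(Γ_div)`), and `N` the number of distinct `m`-th powers of the zeros of `f`
(so `N = d` if no quotient of two distinct zeros is an `m`-th root of unity). Integral means: with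
coefficients that are algebraic integers.

(1) Let `q ≥ 2` and `m ≥ 1` be integers, and let `G` be a monic polynomial over `F` of degree `D ≥ 1`
such that `f` divides `G (X ^ m)` modulo `q`: `G (X ^ m) = A f + q B` with `B` integral. Then
`(N - D) log q ≤ D (log N + 2 m N h(α))`. If `2 D ≤ N` and `4 D log N ≤ N log q`, then
`h(α) ≥ log q / (8 m D)`.

(2) Let `p` be a prime number, `m = p ^ t`, and let `H` be an integral monic polynomial over `F` of
degree `D ≥ 1` such that `f` divides `H ^ m` modulo `p`. Then the conclusions of (1) hold for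
`q = p`.

(3) Let all the coefficients `a_i` of `f` with `m ∤ i` be divisible by `q` in the ring of algebraic
integers. If `2 d ≤ m N` and `4 d log N ≤ m N log q`, then `h(α) ≥ log q / (8 d)`.

So Rémond's inequality `h(α) ≥ c / D_Γ(α)` holds with the absolute constant `c = (log 2) / 8` for all
these `α` and all subgroups `Γ` (last part of the theorem, in the notation of the problem).

Method: the Vandermonde determinant of the distinct `m`-th powers of the conjugates of `α` over `F`
is divisible by `q ^ (∑ j < N, ⌊j / D⌋)`; its norm from the Galois closure of `ℚ(α)` to `ℚ` is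
bounded from above by Hadamard's inequality at every embedding.
-/

set_option autoImplicit false

open Polynomial

namespace Pool.Agent.Results.MP_f61260_nt.RelativePowersModQ

/-- The absolute logarithmic Weil height of an algebraic integer. -/
noncomputable def height (α : ℂ) : ℝ :=
  Real.log ((minpoly ℤ α).map (Int.castRingHom ℂ)).mahlerMeasure / (minpoly ℤ α).natDegree

/-- The number of distinct values of `z ^ m` for the conjugates `z` of `α` over `F`. -/
noncomputable def powConj (F : IntermediateField ℚ ℂ) (α : ℂ) (m : ℕ) : ℕ :=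
  ((fun z : ℂ => z ^ m) '' ((minpoly F α).rootSet ℂ)).ncard

/-- The coefficients of `P` are algebraic integers. -/
def IntCoeff {F : IntermediateField ℚ ℂ} (P : F[X]) : Prop :=
  ∀ i, IsIntegral ℤ ((P.coeff i : F) : ℂ)

/-- The bounds in (1) and (2). -/
def Bounds (F : IntermediateField ℚ ℂ) (α : ℂ) (q m D : ℕ) : Prop :=
  ((powConj F α m : ℝ) - D) * Real.log q ≤
      D * (Real.log (powConj F α m) + 2 * m * powConj F α m * height α) ∧
    (2 * D ≤ powConj F α m →
      4 * (D : ℝ) * Real.log (powConj F α m) ≤ powConj F α m * Real.log q →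
      Real.log q / (8 * m * D) ≤ height α)

/-- All the coefficients `a_i` of the minimal polynomial of `α` over `F` with `m ∤ i` are divisible
by `q` in the ring of algebraic integers. -/
def GapsModQ (F : IntermediateField ℚ ℂ) (α : ℂ) (q m : ℕ) : Prop :=
  ∀ i, ¬ m ∣ i → ∃ c : ℂ, IsIntegral ℤ c ∧ (((minpoly F α).coeff i : F) : ℂ) = q * c

/-- The division group `Γ_div` of `Γ`. -/
def divGroup (Γ : Subgroup ℂˣ) : Set ℂ :=
  {z : ℂ | z ≠ 0 ∧ ∃ n : ℕ, 1 ≤ n ∧ ∃ g ∈ Γ, (g : ℂ) = z ^ n}

/-- The field `ℚ(Γ_div)`. -/
noncomputable def divField (Γ : Subgroup ℂˣ) : IntermediateField ℚ ℂ :=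
  IntermediateField.adjoin ℚ (divGroup Γ)

/-- **Height lower bounds relative to an arbitrary field, in particular relative to `ℚ(Γ_div)`.** -/
theorem result :
    (∀ (F : IntermediateField ℚ ℂ) (α : ℂ), IsIntegral ℤ α →
      (∀ q m : ℕ, 2 ≤ q → 1 ≤ m → ∀ G A B : F[X], G.Monic → 1 ≤ G.natDegree → IntCoeff B →
        G.comp (X ^ m) = A * minpoly F α + C (q : F) * B → Bounds F α q m G.natDegree) ∧
      (∀ p t : ℕ, p.Prime → ∀ H A B : F[X], H.Monic → 1 ≤ H.natDegree → IntCoeff H →
        IntCoeff B → H ^ p ^ t = A * minpoly F α + C (p : F) * B →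
        Bounds F α p (p ^ t) H.natDegree) ∧
      (∀ q m : ℕ, 2 ≤ q → 1 ≤ m → GapsModQ F α q m →
        2 * (minpoly F α).natDegree ≤ m * powConj F α m →
        4 * ((minpoly F α).natDegree : ℝ) * Real.log (powConj F α m) ≤
          m * powConj F α m * Real.log q →
        Real.log q / (8 * (minpoly F α).natDegree) ≤ height α)) ∧
    (∀ (Γ : Subgroup ℂˣ) (α : ℂ), IsIntegral ℤ α →
      ∀ q m : ℕ, 2 ≤ q → 1 ≤ m → GapsModQ (divField Γ) α q m →
        2 * (minpoly (divField Γ) α).natDegree ≤ m * powConj (divField Γ) α m →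
        4 * ((minpoly (divField Γ) α).natDegree : ℝ) * Real.log (powConj (divField Γ) α m) ≤
          m * powConj (divField Γ) α m * Real.log q →
        ∀ f : ℤ[X], Irreducible f → aeval α f = 0 →
          (Real.log 2 / 8) / ((minpoly (divField Γ) α).natDegree : ℝ) ≤
            Real.log ((f.map (Int.castRingHom ℂ)).mahlerMeasure) / (f.natDegree : ℝ)) := by
  have key : ∀ (F : IntermediateField ℚ ℂ) (α : ℂ), IsIntegral ℤ α →
      ∀ q m : ℕ, 2 ≤ q → 1 ≤ m → GapsModQ F α q m →
        2 * (minpoly F α).natDegree ≤ m * powConj F α m →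
        4 * ((minpoly F α).natDegree : ℝ) * Real.log (powConj F α m) ≤
          m * powConj F α m * Real.log q →
        Real.log q / (8 * (minpoly F α).natDegree) ≤ height α := by
    intro F α hα q m hq hm hc h2 h3
    exact Pool.Agent.TH860.LP.rel_gap hα q m (by omega) hm hc h2 h3
  have bnd : ∀ (F : IntermediateField ℚ ℂ) (α : ℂ) (q m D : ℕ), 2 ≤ q → 0 < m → 0 < D →
      0 < powConj F α m →
      ((powConj F α m : ℝ) - D) * Real.log q ≤
        D * (Real.log (powConj F α m) + 2 * (m * (powConj F α m * height α))) →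
      Bounds F α q m D := by
    intro F α q m D hq hm hD hN h
    refine ⟨?_, fun h2 h3 => ?_⟩
    · have e : 2 * (m : ℝ) * powConj F α m * height α =
        2 * (m * (powConj F α m * height α)) := by ring
      rw [e]
      exact h
    · have h4 := Pool.Agent.TH860.LP.to_height hN hD hm (by omega) h h2 h3
      rw [mul_assoc 8 (m : ℝ)]
      exact h4
  refine ⟨fun F α hα => ⟨fun q m hq hm G A B hGm hG0 hB hAB => ?_,
    fun p t hp H A B hHm hH0 hH hB hAB => ?_, key F α hα⟩,
    fun Γ α hα q m hq hm hc h2 h3 f hf h0 => ?_⟩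
  · obtain ⟨h1, h2⟩ := Pool.Agent.TH860.LP.rel_main hα q m (by omega) G A B hGm (by omega) hB hAB
    exact bnd F α q m _ hq (by omega) (by omega) h1 h2
  · obtain ⟨h1, h2⟩ := Pool.Agent.TH860.LP.rel_prime hα hp t H A B hHm (by omega) hH hB hAB
    exact bnd F α p (p ^ t) _ hp.two_le (pow_pos hp.pos t) (by omega) h1 h2
  · have h4 := key (divField Γ) α hα q m hq hm hc h2 h3
    rw [Pool.Agent.TH860.LP.hgt_eq hα f hf h0]
    have hd : (0 : ℝ) < (minpoly (divField Γ) α).natDegree := by
      have : IsIntegral (divField Γ) α := hα.tower_top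
      exact_mod_cast minpoly.natDegree_pos this
    have hlog : Real.log 2 ≤ Real.log q :=
      Real.log_le_log (by norm_num) (by exact_mod_cast hq)
    refine le_trans ?_ h4
    rw [div_div]
    exact div_le_div_of_nonneg_right hlog (by positivity)

end Pool.Agent.Results.MP_f61260_nt.RelativePowersModQ
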