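import Mathlib
import Pool.Agent.TH53.BL11

set_option autoImplicit false

/-!
# The inequality for quotients of sums of radicals

All fields are subfields of `AlgebraicClosure ℚ`; subgroups of the multiplicative group are
subgroups of the unit group of `AlgebraicClosure ℚ`.
-/

namespace Pool.Agent.Results.MP_f61260_nt.SumsOfRadicals

open Pool.Agent.H58P (Qb ht)
open Pool.Agent.W237.RK
open Pool.Agent.TH53.RP
open Pool.Agent.TH53.BL

/-- `β` lies in the division group of `Γ`: a positive power of `β` is an element of `Γ` -/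
def InDivisionGroup (Γ : Subgroup (AlgebraicClosure ℚ)ˣ) (β : AlgebraicClosure ℚ) : Prop :=
  ∃ n : ℕ, 0 < n ∧ ∃ g ∈ Γ, β ^ n = (g : AlgebraicClosure ℚ)

/-- the field generated by the division group of `Γ` -/
noncomputable def divisionField (Γ : Subgroup (AlgebraicClosure ℚ)ˣ) :
    IntermediateField ℚ (AlgebraicClosure ℚ) :=
  IntermediateField.adjoin ℚ {y | InDivisionGroup Γ y}

/-- the degree of `α` over the field generated by the division group of `Γ` -/
noncomputable def divisionDegree (Γ : Subgroup (AlgebraicClosure ℚ)ˣ)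
    (α : AlgebraicClosure ℚ) : ℕ :=
  (minpoly (divisionField Γ) α).natDegree

/-- the field generated by all roots of unity -/
noncomputable def cyclotomicClosure : IntermediateField ℚ (AlgebraicClosure ℚ) :=
  IntermediateField.adjoin ℚ {y | ∃ n : ℕ, 0 < n ∧ y ^ n = 1}

/-- `θ` is a radical over `E`: a positive power of `θ` lies in `E` -/
def IsRadical (E : IntermediateField cyclotomicClosure (AlgebraicClosure ℚ))
    (θ : AlgebraicClosure ℚ) : Prop :=
  ∃ m : ℕ, 0 < m ∧ θ ^ m ∈ E

/-- `α` is the quotient of a sum of `k` radicals over `E` by a nonzero sum of `l` radicals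
over `E` -/
def IsQuotientOfSumsOfRadicals
    (E : IntermediateField cyclotomicClosure (AlgebraicClosure ℚ)) (k l : ℕ)
    (α : AlgebraicClosure ℚ) : Prop :=
  ∃ (θ : Fin k → AlgebraicClosure ℚ) (θ' : Fin l → AlgebraicClosure ℚ),
    (∀ j, IsRadical E (θ j)) ∧ (∀ j, IsRadical E (θ' j)) ∧ ∑ j, θ' j ≠ 0 ∧
    α = (∑ j, θ j) / ∑ j, θ' j

/-- **The inequality for quotients of sums of radicals.** Let `Γ` be a finitely generated subgroup
of `ℚ̄*`. There is a positive integer `A`, depending only on `Γ`, such that the following holds.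
Let `E` be an extension of degree at most `D` of the field generated by all roots of unity, and let
`α`, nonzero and not in the division group of `Γ`, be the quotient of a sum of `k` radicals over
`E` by a sum of `l` radicals over `E`. Let `ξ` be `α` itself, or any algebraic number such that `α`
is the constant coefficient of the minimal polynomial of `ξ` over the field generated by the
division group of `Γ`. Put `n = k + l`, `B = (2^(n^2 + 1) 2 n!)^(n (n + 1))` and
`c = 1 / (A (D B)^A)`. Then the height of `ξ` is at least `c` divided by the degree of `ξ` over the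
field generated by the division group of `Γ`. -/
theorem result :
    ∀ (Γ : Subgroup (AlgebraicClosure ℚ)ˣ), Γ.FG → ∃ A : ℕ, 0 < A ∧
      ∀ (k l D : ℕ) (E : IntermediateField cyclotomicClosure (AlgebraicClosure ℚ)),
        FiniteDimensional cyclotomicClosure E → Module.finrank cyclotomicClosure E ≤ D →
        ∀ α : AlgebraicClosure ℚ, IsQuotientOfSumsOfRadicals E k l α → α ≠ 0 →
          ¬ InDivisionGroup Γ α →
          ∀ ξ : AlgebraicClosure ℚ,
            (ξ = α ∨
              (((minpoly (divisionField Γ) ξ).coeff 0 : divisionField Γ) : AlgebraicClosure ℚ) =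
                α) →
            1 / ((A : ℝ) * ((D : ℝ) * ((2 : ℝ) ^ ((k + l) ^ 2 + 1) *
                (2 * ((k + l).factorial : ℝ))) ^ ((k + l) * (k + l + 1))) ^ A) /
                (divisionDegree Γ ξ : ℝ) ≤
              NumberField.absLogHeight₁ ξ := by
  intro Γ hΓ
  obtain ⟨A, hA, hmain⟩ := main3 Γ hΓ
  refine ⟨A, hA, ?_⟩
  intro k l D E hE hD α hα hα0 hnd ξ hξ
  obtain ⟨θ, θ', hθ, hθ', hQ, hquot⟩ := hα
  have hc : 1 / ((A : ℝ) * ((D : ℝ) * ((2 : ℝ) ^ ((k + l) ^ 2 + 1) *
      (2 * ((k + l).factorial : ℝ))) ^ ((k + l) * (k + l + 1))) ^ A) =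
      lowc A (D * B2 (k + l)) := by
    rw [lowc, B2, one_div]
    push_cast
    rfl
  have key : lowc A (D * B2 (k + l)) / (divisionDegree Γ α : ℝ) ≤ ht α :=
    hmain k l D E hE hD θ θ' hθ hθ' α (by rw [hquot, div_mul_cancel₀ _ hQ]) hQ hα0 hnd
  rw [hc, Pool.Agent.H58P.absLogHeight₁_eq]
  rcases hξ with hξ | hξ
  · rw [hξ]
    exact key
  · have h1 := ht_coeff_zero (divisionField Γ) ξ
    rw [hξ] at h1
    have h0 : divisionDegree Γ α = 1 := by
      rw [divisionDegree, ← hξ]
      exact minpoly.natDegree_eq_one_iff.mpr ⟨_, rfl⟩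
    have h2 := key
    rw [h0, Nat.cast_one, div_one] at h2
    have h3 : 0 < (minpoly (divisionField Γ) ξ).natDegree :=
      minpoly.natDegree_pos (Pool.Agent.H58P.qb_isIntegral ξ).tower_top
    have h4 : (0 : ℝ) < (divisionDegree Γ ξ : ℝ) := by exact_mod_cast h3
    rw [div_le_iff₀ h4]
    exact (h2.trans h1).trans (le_of_eq (mul_comm _ _))

end Pool.Agent.Results.MP_f61260_nt.SumsOfRadicals
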